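import Pool.Agent.W_448rc_h10.RcI
import Pool.Agent.W_448p_h97.PaM
import Pool.Agent.W_448kf_h15.KfB
import Pool.Agent.W_448cl_h64.ClL

/-!
MP_448cb3_co, G2, case B, window `j - 1`: the part of a row with two stars (`Pat6`).  No element hangs
below an inner element or a closed end, so there are no pendants of the window; the contribution of the
window `j - 1` to a functional with free weights, for the three kinds of ends.  helper76.
-/

namespace Pool.Agent.GaussPoset.Wd

set_option linter.unusedSectionVars false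

open Finset Win Win.I2 Win.Rc EK Win.Pn Win.W4
open Pool.Agent.GaussPoset.Win.SO (F5 N1f N5f CQ envc chc mem_N1f mem_N5f)

universe u

variable {P : Type u} [Fintype P] [PartialOrder P] [DecidableEq P] {r j i : ℕ}
  {t : Tops P} {m : ℕ} {x : ℕ → P} {c : ℕ → ℤ} {β : ℤ}

section row

variable (h : NJ P r j) (hij : i + 1 = j) (hi1 : 1 ≤ i)

include h hij in
/-- no pendants: nothing at the window `j - 1` -/
lemma NJ.np_vals (hN : ∀ q ∈ SS i t, q ∉ PD P i ∧ q ∉ PU P i) :
    FL i (SS i t) = ∅ ∧ FU' i (SS i t) = ∅ ∧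
      (PD P i).filter (fun p => (topOf p : Tops P) = t) = ∅ := by
  classical
  have H := h.g.H
  refine ⟨?_, ?_, ?_⟩
  · rw [eq_empty_iff_forall_notMem]
    intro w hw
    rw [mem_FL] at hw
    obtain ⟨hw1, z, hz1, hz2⟩ := hw
    have hzw : w ⋖ z := by rw [← mem_uc, hz2]; simp
    have hz : z ∈ SS i t := (h.part (i := i) (k := j + 1) (by omega) (by omega) t).up hw1 hzw
    exact (hN z hz).1 hz1
  · rw [eq_empty_iff_forall_notMem]
    intro w hw
    rw [mem_FU'] at hw
    obtain ⟨hw1, z, hz1, hz2⟩ := hw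
    have lz := (mem_PU.1 hz1).1
    have hzw : z ⋖ w := by rw [← mem_dc, hz2]; simp
    have lw := lev_cov H hzw
    have hwt : w ≤ (t : P) := (h.mem (by omega) t (by omega)).1 hw1
    have hzS : z ∈ SS i t := (h.mem (by omega) t (by omega)).2 (hzw.le.trans hwt)
    exact (hN z hzS).2 hz1
  · rw [eq_empty_iff_forall_notMem]
    intro q hq
    rw [mem_filter] at hq
    obtain ⟨hq1, hq2⟩ := hq
    have lq := (mem_PD.1 hq1).1
    exact (hN q ((h.mem (by omega) t (by omega)).2 (hq2 ▸ le_topOf q))).1 hq1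

include h hij in
/-- no pendants: no joins with a pendant -/
lemma NJ.np_N5f (hN : ∀ q ∈ SS i t, q ∉ PD P i ∧ q ∉ PU P i) : N5f i (SS i t) = ∅ := by
  classical
  have H := h.g.H
  rw [eq_empty_iff_forall_notMem]
  intro z hz
  rw [mem_N5f] at hz
  obtain ⟨hzS, ⟨hl, p, w, hp, hw, hu, -⟩ | ⟨hl, p, w, hp, hw, hu, -⟩⟩ := hz
  · have hpz : z ⋖ p := by rw [← mem_uc, hu]; simp
    exact (hN p ((h.part (i := i) (k := j + 1) (by omega) (by omega) t).up hzS hpz)).1 hp
  · have hpz : p ⋖ z := by rw [← mem_dc, hu]; simp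
    have lp := lev_cov H hpz
    have hzt : z ≤ (t : P) := (h.mem (by omega) t (by omega)).1 hzS
    exact (hN p ((h.mem (by omega) t (by omega)).2 (hpz.le.trans hzt))).2 hp

include h hij in
/-- no pendants: no inner joins over a twin and a pendant -/
lemma NJ.np_ETs (hN : ∀ q ∈ SS i t, q ∉ PD P i ∧ q ∉ PU P i) : Rd.ETs i (SS i t) = ∅ := by
  classical
  have H := h.g.H
  rw [eq_empty_iff_forall_notMem]
  intro s hs
  rw [Rd.mem_ETs] at hs
  obtain ⟨p0, y0, E⟩ := hs
  have hl := E.lv H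
  have hcp : s.2 ⋖ p0 := mem_dc.1 E.cp
  have hp : p0 ∈ SS i t := (h.part (i := i) (k := j + 1) (by omega) (by omega) t).up E.mc hcp
  refine (hN p0 hp).1 ?_
  rw [mem_PD]
  refine ⟨hl.1, by rw [E.up, card_singleton], y0, ?_, E.cy⟩
  rw [← mem_uc, E.up]
  exact mem_singleton_self _

include h hij in
/-- no pendants below: no pendants above -/
lemma NJ.np_PU (hN : ∀ q ∈ SS i t, q ∉ PD P i) : ∀ q ∈ SS i t, q ∉ PU P i := by
  classical
  intro q hq hqu
  have hone := indiv_21 h.g i (by omega) t t.2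
  have lq := (mem_PU.1 hqu).1
  have hqt : q ≤ (t : P) := (h.mem (by omega) t (by omega)).1 hq
  have h1 : q ∈ PUt i (t : P) := mem_PUt.2 ⟨hqu, hqt⟩
  have h2 : 1 ≤ (PUt i (t : P)).card := card_pos.2 ⟨q, h1⟩
  have h3 : PDt i (t : P) = ∅ := by
    rw [eq_empty_iff_forall_notMem]
    intro p hp
    rw [mem_PDt] at hp
    have lp := (mem_PD.1 hp.1).1
    exact hN p ((h.mem (by omega) t (by omega)).2 hp.2) hp.1
  rw [h3, card_empty] at hone
  omega

variable (B : RowB P j t m x c β) (hp : Pat6 m c β)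
include h hij B hp

/-- THE PART OF A ROW WITH TWO STARS has no pendants of the window `j - 1` -/
theorem NJ.no_pend6 : ∀ q ∈ SS i t, q ∉ PD P i ∧ q ∉ PU P i := by
  classical
  have H := h.g.H
  have h1 : ∀ q ∈ SS i t, q ∉ PD P i := by
    intro q hq hqd
    obtain ⟨lq, cq, -⟩ := mem_PD.1 hqd
    rw [← h.cext_eq (i := i) (by omega) t] at hq
    have h2 := Pa.paM_dbl h B hp (y := q) (by omega) hq
    omega
  exact fun q hq => ⟨h1 q hq, NJ.np_PU h hij h1 q hq⟩

/-- the number of sites -/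
theorem NJ.sites6 (hi1 : 1 ≤ i) : (st i (SS i t)).card =
    m + ((uc (x 0)).card - 1) + ((uc (x m)).card - 1) ∧ 5 ≤ (st i (SS i t)).card := by
  obtain ⟨-, h2, -⟩ := h.inner hij hi1 B
  have := hp.1
  have := h2 (by omega)
  exact ⟨this, by omega⟩

/-- no pendants: the numbers -/
theorem NJ.zero6 : fa i (SS i t) = 0 ∧ (∀ k, fm i (SS i t) x k = 0) ∧
    (Rd.ETs i (SS i t)).card = 0 ∧ n5 i (SS i t) = 0 := by
  classical
  have hN := NJ.no_pend6 h hij B hp
  obtain ⟨f1, f2, -⟩ := NJ.np_vals h hij hN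
  refine ⟨?_, ?_, ?_, ?_⟩
  · unfold fa
    rw [f1, f2]
    simp
  · intro k
    unfold fm
    rw [f1, f2]
    simp
  · rw [NJ.np_ETs h hij hN, card_empty]
  · unfold n5
    rw [NJ.np_N5f h hij hN]
    simp

/-- the shares of the part vanish -/
theorem NJ.shr6 (W : Wt) :
    ∑ p ∈ (PD P i).filter (fun p => (topOf p : Tops P) = t), shr W i p = 0 := by
  obtain ⟨-, -, f3⟩ := NJ.np_vals h hij (NJ.no_pend6 h hij B hp)
  rw [f3, sum_empty]

include hi1

/-- [DL .. LD], the closed end on the right -/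
theorem NJ.vals6_one' (h4 : 4 ≤ (st i (SS i t)).card)
    (h0 : (uc (x 0)).card = 1) (hm1 : (uc (x m)).card = 2) :
    Vals i (SS i t) (1 + fa i (SS i t)) (-1)
      (((Rd.ETs i (SS i t)).card : ℤ) - fm i (SS i t) x (m - 1))
      (1 - 2 * ((Rd.NfC i (SS i t)).card : ℤ)) := by
  classical
  have hm := hp.1
  obtain ⟨e1, e2, e3⟩ := h.inner_Ed hij hi1 B hm
  obtain ⟨v3, v5, v8, v10⟩ := h.rowc hij hi1 B h4
  have hEt : Et x m c = {m - 1} := by
    ext k
    rw [h.Et_six hij hi1 B hp k, mem_singleton]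
    constructor
    · rintro (h5 | h5) <;> omega
    · rintro rfl
      exact Or.inr ⟨rfl, hm1⟩
  have n0 : 0 ∉ Ed x m := by rw [e2]; omega
  have n1 := e1 1 (by omega) (by omega)
  have n2 := e1 (m - 2) (by omega) (by omega)
  have n3 : m - 1 ∈ Ed x m := e3.2 hm1
  have s1 : ∑ k ∈ Ed x m, c k = -1 := by
    rw [pat6_sum hp (fun k hk => (Wd.mem_Ed.1 hk).1), if_neg n0, if_pos n3, if_pos n1, if_pos n2]
    norm_num
  have s3 : ∑ l ∈ (Ed x m).filter (fun l => l ≤ m - 1 + 2 ∧ m - 1 ≤ l + 2), c l = 0 := by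
    rw [pat6_sum hp (fun k hk => (Wd.mem_Ed.1 (mem_filter.1 hk).1).1),
      if_neg (fun h5 => by have := (mem_filter.1 h5).2; omega),
      if_neg (fun h5 => by have := (mem_filter.1 h5).2; omega),
      if_pos (mem_filter.2 ⟨n2, by omega, by omega⟩),
      if_pos (mem_filter.2 ⟨n3, by omega, by omega⟩)]
    norm_num
  rw [hEt] at v5 v8 v10
  rw [card_singleton] at v5
  rw [sum_singleton] at v8 v10
  refine ⟨?_, ?_, ?_, ?_⟩
  · rw [v3, s1]
    unfold fa
    ring
  · rw [v5]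
    norm_num
  · rw [v8, s3]
    unfold fm
    ring
  · rw [v10]
    have e5 : ({m - 1} : Finset ℕ).filter (fun l => l ≤ m - 1 + 2 ∧ m - 1 ≤ l + 2) =
        {m - 1} := by
      rw [filter_eq_self]
      intro l hl
      rw [mem_singleton] at hl
      omega
    rw [e5, card_singleton]
    norm_num

/-- the quadratic form -/
theorem NJ.QQ6_np : Win.QQ i (SS i t) = (if (uc (x 0)).card = 2 then 0 else 1) +
    (if (uc (x m)).card = 2 then 0 else 1) + (if m = 5 then 2 else 0) := by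
  classical
  obtain ⟨f1, f2, -⟩ := NJ.np_vals h hij (NJ.no_pend6 h hij B hp)
  obtain ⟨z1, -, -, -⟩ := NJ.zero6 h hij B hp
  obtain ⟨-, e2, e3⟩ := h.inner_Ed hij hi1 B hp.1
  rw [h.QQ6 hij hi1 B hp (q := 0) (by omega) (by
    intro z hz
    rw [f1, f2] at hz
    simp at hz), z1]
  simp only [e2, e3]
  ring

/-- THE WINDOW `j - 1`, both ends closed -/
theorem NJ.own1_six_two (W : Wt) (h0 : (uc (x 0)).card = 2) (hm1 : (uc (x m)).card = 2) :
    own1 W i t = -2 * W.a5 + W.a6 * ((if m = 5 then 2 else 0) + 2 * n1 i (SS i t) +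
      2 * cqs i (SS i t)) + 2 * W.a10 := by
  obtain ⟨-, h5⟩ := NJ.sites6 h hij B hp hi1
  obtain ⟨z1, z2, z3, z4⟩ := NJ.zero6 h hij B hp
  have v := h.vals6_two hij hi1 B (by omega) hp h0 hm1
  rw [NJ.nfc h hij hi1 t] at v
  rw [NJ.own1_of h hij hi1 W (by omega) v (NJ.QQ6_np h hij hi1 B hp), if_pos h0, if_pos hm1, z1,
    z2, z2, z3, z4]
  push_cast
  ring

/-- THE WINDOW `j - 1`, the left end closed -/
theorem NJ.own1_six_left (W : Wt) (h0 : (uc (x 0)).card = 2) (hm1 : (uc (x m)).card = 1) :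
    own1 W i t = W.a3 - W.a5 + W.a6 * (1 + (if m = 5 then 2 else 0) + 2 * n1 i (SS i t) +
      2 * cqs i (SS i t)) + W.a10 := by
  obtain ⟨-, h5⟩ := NJ.sites6 h hij B hp hi1
  obtain ⟨z1, z2, z3, z4⟩ := NJ.zero6 h hij B hp
  have v := h.vals6_one hij hi1 B (by omega) hp h0 hm1
  rw [NJ.nfc h hij hi1 t] at v
  rw [NJ.own1_of h hij hi1 W (by omega) v (NJ.QQ6_np h hij hi1 B hp), if_pos h0,
    if_neg (by omega), z1, z2, z3, z4]
  push_cast
  ring

/-- THE WINDOW `j - 1`, the right end closed -/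
theorem NJ.own1_six_right (W : Wt) (h0 : (uc (x 0)).card = 1) (hm1 : (uc (x m)).card = 2) :
    own1 W i t = W.a3 - W.a5 + W.a6 * (1 + (if m = 5 then 2 else 0) + 2 * n1 i (SS i t) +
      2 * cqs i (SS i t)) + W.a10 := by
  obtain ⟨-, h5⟩ := NJ.sites6 h hij B hp hi1
  obtain ⟨z1, z2, z3, z4⟩ := NJ.zero6 h hij B hp
  have v := NJ.vals6_one' h hij hi1 B hp (by omega) h0 hm1
  rw [NJ.nfc h hij hi1 t] at v
  rw [NJ.own1_of h hij hi1 W (by omega) v (NJ.QQ6_np h hij hi1 B hp), if_neg (by omega),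
    if_pos hm1, z1, z2, z3, z4]
  push_cast
  ring

/-- THE WINDOW `j - 1`, both ends open -/
theorem NJ.own1_six_open (W : Wt) (h0 : (uc (x 0)).card = 1) (hm1 : (uc (x m)).card = 1) :
    own1 W i t = 2 * W.a3 + W.a6 * (2 + (if m = 5 then 2 else 0) + 2 * n1 i (SS i t) +
      2 * cqs i (SS i t)) := by
  obtain ⟨-, h5⟩ := NJ.sites6 h hij B hp hi1
  obtain ⟨z1, z2, z3, z4⟩ := NJ.zero6 h hij B hp
  have v := h.vals6_open hij hi1 B (by omega) hp h0 hm1
  rw [NJ.nfc h hij hi1 t] at v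
  rw [NJ.own1_of h hij hi1 W (by omega) v (NJ.QQ6_np h hij hi1 B hp), if_neg (by omega),
    if_neg (by omega), z1, z4]
  push_cast
  ring

end row

section cq

variable (h : NJ P r j) (hij : i + 1 = j) (hi1 : 1 ≤ i)
include h hij hi1

/-- the bound for the closed pairs, with the children of the closed twins -/
theorem NJ.cqs_ge4 (h4 : 4 ≤ (st i (SS i t)).card) : 4 * ((CQ i (SS i t)).card : ℤ) +
    ∑ w ∈ CQ i (SS i t), ((chc i (SS i t) w).card : ℤ) ≤ cqs i (SS i t) := by
  have h1 : ∑ w ∈ CQ i (SS i t), (4 + ((chc i (SS i t) w).card : ℤ)) ≤ cqs i (SS i t) :=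
    sum_le_sum fun w hw => nj_env_ge h hij hi1 t h4 hw
  rw [sum_add_distrib, sum_const, nsmul_eq_mul] at h1
  linarith

theorem NJ.card_CQ_of (h4 : 4 ≤ (st i (SS i t)).card) {a b q8 q10 : ℤ}
    (v : Vals i (SS i t) a b q8 q10) : ((CQ i (SS i t)).card : ℤ) = -b := by
  have h1 := nj_be5_CQ h hij hi1 t (nj_F5_three h hij hi1 t (by omega))
  rw [v.al.2] at h1
  linarith

end cq

section row

variable (h : NJ P r j) (hij : i + 1 = j) (hi1 : 1 ≤ i) (B : RowB P j t m x c β)
  (hp : Pat6 m c β)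
include h hij hi1 B hp

/-- the number of closed pairs of a row with two stars -/
theorem NJ.card_CQ6 : ((CQ i (SS i t)).card : ℤ) = (if (uc (x 0)).card = 2 then 1 else 0) +
    (if (uc (x m)).card = 2 then 1 else 0) := by
  obtain ⟨-, h5⟩ := NJ.sites6 h hij B hp hi1
  obtain ⟨-, -, h3⟩ := h.inner hij hi1 B
  rcases h3 0 (by omega) with h0 | h0 <;> rcases h3 m le_rfl with hm1 | hm1
  · rw [NJ.card_CQ_of h hij hi1 (by omega) (h.vals6_open hij hi1 B (by omega) hp h0 hm1),
      if_neg (by omega), if_neg (by omega)]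
    norm_num
  · rw [NJ.card_CQ_of h hij hi1 (by omega) (NJ.vals6_one' h hij hi1 B hp (by omega) h0 hm1),
      if_neg (by omega), if_pos hm1]
    norm_num
  · rw [NJ.card_CQ_of h hij hi1 (by omega) (h.vals6_one hij hi1 B (by omega) hp h0 hm1),
      if_pos h0, if_neg (by omega)]
    norm_num
  · rw [NJ.card_CQ_of h hij hi1 (by omega) (h.vals6_two hij hi1 B (by omega) hp h0 hm1),
      if_pos h0, if_pos hm1]
    norm_num

/-- THE CLOSED PAIRS of a row with two stars, with the children of the closed twins -/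
theorem NJ.cqs_six : 4 * ((if (uc (x 0)).card = 2 then 1 else 0) +
    (if (uc (x m)).card = 2 then 1 else 0)) +
    ∑ w ∈ CQ i (SS i t), ((chc i (SS i t) w).card : ℤ) ≤ cqs i (SS i t) := by
  obtain ⟨-, h5⟩ := NJ.sites6 h hij B hp hi1
  have h1 := NJ.cqs_ge4 (t := t) h hij hi1 (by omega)
  rw [NJ.card_CQ6 h hij hi1 B hp] at h1
  exact h1

theorem NJ.cqs_six_two (h0 : (uc (x 0)).card = 2) (hm1 : (uc (x m)).card = 2) :
    8 + ∑ w ∈ CQ i (SS i t), ((chc i (SS i t) w).card : ℤ) ≤ cqs i (SS i t) := by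
  have h1 := NJ.cqs_six h hij hi1 B hp
  rw [if_pos h0, if_pos hm1] at h1
  linarith

theorem NJ.cqs_six_one (h0 : ((uc (x 0)).card = 2 ∧ (uc (x m)).card = 1) ∨
    ((uc (x 0)).card = 1 ∧ (uc (x m)).card = 2)) :
    4 + ∑ w ∈ CQ i (SS i t), ((chc i (SS i t) w).card : ℤ) ≤ cqs i (SS i t) := by
  have h1 := NJ.cqs_six h hij hi1 B hp
  rcases h0 with ⟨a, b⟩ | ⟨a, b⟩
  · rw [if_pos a, if_neg (by omega)] at h1
    linarith
  · rw [if_neg (by omega), if_pos b] at h1
    linarith

end row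

section de

variable (h : NJ P r j) (hij : i + 1 = j) (B : RowB P j t m x c β)
include h hij B

/-- a pendant of the window `j` over a full edge is private below a three-site element -/
theorem NJ.DE_N1f {k : ℕ} (hk : k ∈ Ed x m) :
    DE j (cext (j + 1) (topOf : P → Tops P) t) x k ⊆ N1f i (SS i t) := by
  classical
  have H := h.g.H
  intro z hz
  obtain ⟨hzC, hzp, hs⟩ := mem_DE.1 hz
  obtain ⟨lz, cz, y, hzy, cy⟩ := mem_PD.1 hzp
  obtain ⟨hkm, c0, c1⟩ := Wd.mem_Ed.1 hk
  obtain ⟨y', hy'⟩ := card_eq_one.1 cz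
  have hyy : y = y' := by
    have : y ∈ uc z := mem_uc.2 hzy
    rwa [hy', mem_singleton] at this
  subst hyy
  have ly := lev_cov H hzy
  have hsy : uc y = {x k, x (k + 1)} := by
    rw [← Pn.sit_PDs H hzp hy', hs]
    rfl
  have hC := part_cext H (le_refl (j + 1)) h.split t
  have hyC : y ∈ cext (j + 1) (topOf : P → Tops P) t := hC.up hzC hzy
  have hyS : y ∈ SS i t := by
    rw [← h.cext_eq (i := i) (by omega) t]
    exact hyC
  have hzS : z ∈ SS i t := by
    rw [← h.cext_eq (i := i) (by omega) t]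
    exact hzC
  have hup : up i y = 3 := by
    rw [← card_sts]
    have e1 : sts i y = uc (x k) ∪ uc (x (k + 1)) := by
      ext v
      rw [mem_sts_iff H (by omega), hsy, mem_union]
      constructor
      · rintro ⟨w, hw, hv⟩
        rw [mem_insert, mem_singleton] at hw
        rcases hw with rfl | rfl
        · exact Or.inl hv
        · exact Or.inr hv
      · rintro (hv | hv)
        · exact ⟨x k, by simp, hv⟩
        · exact ⟨x (k + 1), by simp, hv⟩
    have e2 : (uc (x k) ∩ uc (x (k + 1))).card = 1 := by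
      have h1 := B.ucv_x k (k + 1) (by omega) (by omega)
      rw [if_pos rfl] at h1
      unfold ucv at h1
      have e4 : uc (x k) ∩ uc (x (k + 1)) = univ.filter (fun v => x k ⋖ v ∧ x (k + 1) ⋖ v) := by
        ext v
        rw [mem_inter, mem_uc, mem_uc, mem_filter]
        exact ⟨fun a => ⟨mem_univ _, a⟩, fun a => a.2⟩
      rw [e4]
      exact h1
    have e3 := card_union_add_card_inter (uc (x k)) (uc (x (k + 1)))
    rw [e1]
    omega
  rw [mem_N1f]
  exact ⟨hzS, Or.inl ⟨by omega, y, mem_ZL.2 ⟨hyS, by omega, hup⟩, hy'⟩⟩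

/-- THE PENDANTS OF THE WINDOW `j` over full edges are counted by the private elements below the
three-site elements of the window `j - 1` -/
theorem NJ.DE_le_n1 :
    ∑ k ∈ Ed x m, ((DE j (cext (j + 1) (topOf : P → Tops P) t) x k).card : ℤ) ≤
      n1 i (SS i t) := by
  classical
  have hdj : ∀ k ∈ Ed x m, ∀ l ∈ Ed x m, k ≠ l →
      Disjoint (DE j (cext (j + 1) (topOf : P → Tops P) t) x k)
        (DE j (cext (j + 1) (topOf : P → Tops P) t) x l) := by
    intro k hk l hl hne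
    rw [disjoint_left]
    intro z hz hz'
    have e1 := (mem_DE.1 hz).2.2
    have e2 := (mem_DE.1 hz').2.2
    rw [e1] at e2
    have a1 := (Wd.mem_Ed.1 hk).1
    have a2 := (Wd.mem_Ed.1 hl).1
    have b1 : x k ∈ ed x l := by
      rw [← e2]
      unfold ed
      simp
    have b2 : x (k + 1) ∈ ed x l := by
      rw [← e2]
      unfold ed
      simp
    unfold ed at b1 b2
    rw [mem_insert, mem_singleton] at b1 b2
    rcases b1 with b1 | b1
    · exact hne (B.row.inj k l (by omega) (by omega) b1)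
    · have g1 := B.row.inj k (l + 1) (by omega) (by omega) b1
      rcases b2 with b2 | b2
      · have g2 := B.row.inj (k + 1) l (by omega) (by omega) b2
        omega
      · have g2 := B.row.inj (k + 1) (l + 1) (by omega) (by omega) b2
        omega
  have h1 := card_le_card (biUnion_subset.2 (fun k hk => NJ.DE_N1f h hij B hk))
  rw [card_biUnion hdj] at h1
  unfold n1
  exact_mod_cast h1

end de

section six

variable (h : NJ P r j) (hij : i + 1 = j) (hi1 : 1 ≤ i) (B : RowB P j t m x c β)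
  (hp : Pat6 m c β)
include h hij hi1 B hp

/-- THE WINDOW `j - 1`, both ends closed; for the weights of STEP 0 (`Wst`) and of the level eight
(`Wei`) the hypotheses on the weights are `rfl` -/
theorem NJ.own6_two (W : Wt) (w6 : W.a6 = 1) (w5 : W.a5 = W.a10 + 6) (h0 : (uc (x 0)).card = 2)
    (hm1 : (uc (x m)).card = 2) : 4 + (if m = 5 then 2 else 0) +
      2 * ∑ k ∈ Ed x m, ((DE j (cext (j + 1) (topOf : P → Tops P) t) x k).card : ℤ) +
      2 * ∑ w ∈ CQ i (SS i t), ((chc i (SS i t) w).card : ℤ) ≤ own1 W i t := by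
  have h1 := NJ.own1_six_two h hij hi1 B hp W h0 hm1
  have h2 := NJ.cqs_six_two h hij hi1 B hp h0 hm1
  have h3 := NJ.DE_le_n1 h hij B
  rw [w6, w5] at h1
  rw [h1]
  linarith

/-- THE WINDOW `j - 1`, one end closed -/
theorem NJ.own6_one (W : Wt) (w3 : W.a3 = -1) (w6 : W.a6 = 1) (w5 : W.a5 = W.a10 + 6)
    (h0 : ((uc (x 0)).card = 2 ∧ (uc (x m)).card = 1) ∨
    ((uc (x 0)).card = 1 ∧ (uc (x m)).card = 2)) : 2 + (if m = 5 then 2 else 0) +
      2 * ∑ k ∈ Ed x m, ((DE j (cext (j + 1) (topOf : P → Tops P) t) x k).card : ℤ) +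
      2 * ∑ w ∈ CQ i (SS i t), ((chc i (SS i t) w).card : ℤ) ≤ own1 W i t := by
  have h2 := NJ.cqs_six_one h hij hi1 B hp h0
  have h3 := NJ.DE_le_n1 h hij B
  have h1 : own1 W i t = W.a3 - W.a5 + W.a6 * (1 + (if m = 5 then 2 else 0) +
      2 * n1 i (SS i t) + 2 * cqs i (SS i t)) + W.a10 := by
    rcases h0 with ⟨a, b⟩ | ⟨a, b⟩
    · exact NJ.own1_six_left h hij hi1 B hp W a b
    · exact NJ.own1_six_right h hij hi1 B hp W a b
  rw [w3, w6, w5] at h1
  rw [h1]
  linarith

/-- THE WINDOW `j - 1`, both ends open -/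
theorem NJ.own6_open (W : Wt) (w3 : W.a3 = -1) (w6 : W.a6 = 1) (h0 : (uc (x 0)).card = 1)
    (hm1 : (uc (x m)).card = 1) : (if m = 5 then 2 else 0) +
      2 * ∑ k ∈ Ed x m, ((DE j (cext (j + 1) (topOf : P → Tops P) t) x k).card : ℤ) ≤
        own1 W i t := by
  have h1 := NJ.own1_six_open h hij hi1 B hp W h0 hm1
  have h2 := NJ.cqs_six h hij hi1 B hp
  have h3 := NJ.DE_le_n1 h hij B
  have h4 : 0 ≤ ∑ w ∈ CQ i (SS i t), ((chc i (SS i t) w).card : ℤ) :=
    Finset.sum_nonneg fun w _ => Int.natCast_nonneg _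
  rw [if_neg (by omega), if_neg (by omega)] at h2
  rw [w3, w6] at h1
  rw [h1]
  linarith

end six

end Pool.Agent.GaussPoset.Wd
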